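import Mathlib

/-!
# Arithmetic for `Asm.lean`
-/

set_option linter.unusedVariables false

namespace Pool.Agent.H94.AG

theorem ar1 (n N E k : ℕ) (hN : n = N + 1) (hE1 : 49 * n ^ 2 ≤ 200 * E) (hElt : E < (k + 1) * N) :
    49 * n ≤ 200 * (k + 1) := by
  by_contra hcon
  push Not at hcon
  subst hN
  nlinarith

theorem ar2 (a n k e : ℕ) (ha : 1 ≤ a) (han : a + 1 ≤ n) (h1 : k * a < e)
    (h2 : 200 * e ≤ 51 * (a + 1) ^ 2) : 200 * k ≤ 51 * (n + 2) := by
  by_contra hcon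
  push Not at hcon
  have h3 : 51 * (a + 3) * a ≤ 200 * k * a := Nat.mul_le_mul_right a (by omega)
  nlinarith

theorem ar3 (a k e : ℕ) (ha : 1 ≤ a) (h1 : k * a < e) (h2 : 2 * e + (a + 1) ≤ (a + 1) * (a + 1)) :
    2 * k < a + 1 := by
  by_contra hcon
  push Not at hcon
  have h3 : (a + 1) * a ≤ 2 * k * a := Nat.mul_le_mul_right a hcon
  nlinarith

theorem ar4 (k d m E N : ℕ) (h2 : E = k * N + m)
    (h : (k + d + 1) * E ≤ (k * (k + d + 1) + d) * N) : (k + d + 1) * m ≤ d * N := by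
  subst h2
  have h3 : (k + d + 1) * (k * N + m) = (k + d + 1) * (k * N) + (k + d + 1) * m := by ring
  have h4 : (k * (k + d + 1) + d) * N = (k + d + 1) * (k * N) + d * N := by ring
  omega

theorem ar5 (k d m N n : ℕ) (hN : n = N + 1) (hmd : (k + d + 1) * m ≤ d * N)
    (hk : 49 * n ≤ 200 * (k + 1)) (hdn : d ≤ n) (hd : 1 ≤ d) : 100 * m ≤ 81 * n := by
  by_contra hcon
  push Not at hcon
  have h3 : (81 * n) * (k + d + 1) ≤ (100 * m) * (k + d + 1) := Nat.mul_le_mul_right _ hcon.le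
  have h4 : (100 * m) * (k + d + 1) ≤ (100 * d) * N := by
    have h5 : (100 * m) * (k + d + 1) = 100 * ((k + d + 1) * m) := by ring
    have h6 : (100 * d) * N = 100 * (d * N) := by ring
    omega
  have h5 : (100 * d) * N < (100 * d) * n := Nat.mul_lt_mul_of_pos_left (by omega) (by omega)
  have h6 : n * (81 * (k + d + 1)) < n * (100 * d) := by
    have h7 : n * (81 * (k + d + 1)) = (81 * n) * (k + d + 1) := by ring
    have h8 : n * (100 * d) = (100 * d) * n := by ring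
    omega
  have h7 := Nat.lt_of_mul_lt_mul_left h6
  omega

theorem ar6 (k d m N : ℕ) (hd : 1 ≤ d) (hmd : (k + d + 1) * m ≤ d * N) (h : 6 * d ≤ m) :
    6 * (k + d + 1) ≤ N := by
  have h4 : (k + d + 1) * (6 * d) ≤ d * N := le_trans (Nat.mul_le_mul_left _ h) hmd
  have h5 : d * (6 * (k + d + 1)) ≤ d * N := by
    have : d * (6 * (k + d + 1)) = (k + d + 1) * (6 * d) := by ring
    omega
  exact Nat.le_of_mul_le_mul_left h5 (by omega)

theorem ar7 (a k e : ℕ) (h1 : a + 1 ≤ 2 * k) (h2 : 2 * e + (a + 1) ≤ (a + 1) * (a + 1)) :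
    e ≤ k * a := by
  have h3 : (a + 1) * a ≤ 2 * k * a := Nat.mul_le_mul_right a h1
  nlinarith

theorem ar8 (a j k D e u : ℕ) (h3 : 2 * e + j * D + j ≤ 2 * u + j * j)
    (hu : u ≤ k * (a + j)) (h4 : j + 2 * k ≤ D + 1) : e ≤ k * a := by
  have h5 : j * (j + 2 * k) ≤ j * (D + 1) := Nat.mul_le_mul_left j h4
  have h6 : j * (j + 2 * k) = j * j + 2 * (k * j) := by ring
  have h7 : j * (D + 1) = j * D + j := by ring
  have h8 : k * (a + j) = k * a + k * j := by ring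
  omega

theorem ar9 (a k e g : ℕ) (h3 : 200 * g ≤ 51 * (a + 1) ^ 2) (he : e ≤ g) (ha : 1 ≤ a)
    (h : 51 * (a + 3) ≤ 200 * k) : e ≤ k * a := by
  have h6 : 51 * (a + 3) * a ≤ 200 * k * a := Nat.mul_le_mul_right a h
  nlinarith

end Pool.Agent.H94.AG
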