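import Pool.Agent.H94.AG.Star
import Pool.Agent.H94.AG.Ar

/-!
# The conjecture for typical graphs
-/

set_option linter.unusedSectionVars false

namespace Pool.Agent.H94.AG

open SimpleGraph Pool.Agent.H94.ND Pool.Agent.H94.DI

variable {V : Type} [Fintype V]

/-- the conclusion. -/
def Dec (G : SimpleGraph V) (k d : ℕ) : Prop :=
  ∃ F : Fin (k + 1) → SimpleGraph V, ((∀ i, (F i).IsAcyclic) ∧
      (∀ i j, i ≠ j → Disjoint (F i).edgeSet (F j).edgeSet) ∧
      (⋃ i, (F i).edgeSet) = G.edgeSet) ∧
      ∃ i, ∀ c : (F i).ConnectedComponent, c.toSimpleGraph.edgeSet.ncard ≤ d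

/-- a small forest whose deletion leaves a sparse graph. -/
theorem dec_of_sparse (G F : SimpleGraph V) (k d : ℕ) (hFG : F ≤ G) (hF : F.IsAcyclic)
    (hrc : ∀ v, rc F v ≤ d + 1)
    (hs : ∀ A : Set V, A.Nonempty → eIn (G \ F) A ≤ (k + 1) * (A.ncard - 1)) :
    Dec G (k + 1) d := by
  classical
  set H := G \ F with hH
  obtain ⟨Z, m, -, ⟨φ, hφ, -⟩, -⟩ := base H k hs
  refine ⟨fun i => if h : i.val < k + 1 then cl H φ ⟨i.val, h⟩ else F, ⟨?_, ?_, ?_⟩,
    Fin.last (k + 1), ?_⟩
  · intro i
    by_cases h : i.val < k + 1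
    · simp only [h, dif_pos]
      exact hφ _
    · simp only [h, dif_neg, not_false_eq_true]
      exact hF
  · intro i j hij
    rw [Set.disjoint_left]
    intro x
    induction x using Sym2.ind with
    | _ a b =>
      rw [mem_edgeSet, mem_edgeSet]
      by_cases hi : i.val < k + 1
      · by_cases hj : j.val < k + 1
        · simp only [hi, hj, dif_pos]
          rintro ⟨-, h2⟩ ⟨-, h4⟩
          apply hij
          have h5 := h2.symm.trans h4
          exact Fin.ext (Fin.mk.inj_iff.1 h5)
        · simp only [hi, hj, dif_pos, dif_neg, not_false_eq_true]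
          rintro ⟨h1, -⟩ h3
          exact h1.2 h3
      · by_cases hj : j.val < k + 1
        · simp only [hi, hj, dif_pos, dif_neg, not_false_eq_true]
          rintro h3 ⟨h1, -⟩
          exact h1.2 h3
        · exfalso
          apply hij
          apply Fin.ext
          have h6 := i.isLt
          have h7 := j.isLt
          omega
  · ext x
    induction x using Sym2.ind with
    | _ a b =>
      rw [Set.mem_iUnion]
      constructor
      · rintro ⟨i, h1⟩
        rw [mem_edgeSet] at h1
        by_cases hi : i.val < k + 1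
        · simp only [hi, dif_pos] at h1
          exact h1.1.1
        · simp only [hi, dif_neg, not_false_eq_true] at h1
          exact hFG h1
      · intro h1
        by_cases h2 : F.Adj a b
        · refine ⟨Fin.last (k + 1), ?_⟩
          rw [mem_edgeSet]
          simpa using h2
        · refine ⟨⟨(φ s(a, b)).val, by omega⟩, ?_⟩
          rw [mem_edgeSet]
          have h3 : (φ s(a, b)).val < k + 1 := (φ s(a, b)).isLt
          simp only [h3, dif_pos]
          exact ⟨⟨h1, h2⟩, rfl⟩
  · have h1 : (fun i : Fin (k + 2) => if h : i.val < k + 1 then cl H φ ⟨i.val, h⟩ else F)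
        (Fin.last (k + 1)) = F := by simp
    intro c
    have h2 : ∀ (F' : SimpleGraph V), F' = F → ∀ c : F'.ConnectedComponent,
        c.toSimpleGraph.edgeSet.ncard ≤ d := by
      rintro F' rfl c
      exact comp_edges hF hrc c
    exact h2 _ h1 c

theorem eIn_univ (H : SimpleGraph V) : eIn H Set.univ = H.edgeSet.ncard := by
  unfold eIn
  congr 1
  ext x
  simp

theorem rc_le_edges (H : SimpleGraph V) (v : V) : rc H v ≤ H.edgeSet.ncard + 1 := by
  have h1 := rc_le_eIn H v
  have h2 : eIn H {u | H.Reachable v u} ≤ H.edgeSet.ncard :=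
    Set.ncard_le_ncard (fun e he => he.1) (Set.toFinite _)
  omega

/-- large `d`. -/
theorem dec_large (G : SimpleGraph V) (k d : ℕ) (hd : Nat.card V ≤ d + 2)
    (hlt : ∀ S : Set V, 2 ≤ S.ncard → eIn G S < (k + 1) * (S.ncard - 1))
    (hone : ∀ S : Set V, S.ncard ≤ 1 → eIn G S = 0) (hn : 2 ≤ Nat.card V) : Dec G k d := by
  classical
  obtain ⟨Z, m, -, ⟨φ, hφ, -⟩, -⟩ := base G k (by
    intro A hA
    by_cases h : 2 ≤ A.ncard
    · exact (hlt A h).le
    · rw [hone A (by omega)]
      exact Nat.zero_le _)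
  obtain ⟨i, hi⟩ : ∃ i, (cl G φ i).edgeSet.ncard ≤ d := by
    by_contra hcon
    push Not at hcon
    have hc : ∀ i, Nat.card V - 1 ≤ eIn (cl G φ i ⊓ G) Set.univ := by
      intro i
      have h1 := hcon i
      have h2 : cl G φ i ≤ cl G φ i ⊓ G := le_inf (le_refl _) (fun a b h => h.1)
      have h3 := eIn_le_of_le h2 Set.univ
      rw [eIn_univ] at h3
      omega
    have h4 := eIn_colours φ (le_refl G) Set.univ (Nat.card V - 1) (Nat.card V - 1) (hc _)
      (fun i _ => hc i)
    have h5 := hlt Set.univ (by rw [Set.ncard_univ]; exact hn)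
    rw [Set.ncard_univ] at h5
    have h6 : (k + 1) * (Nat.card V - 1) = k * (Nat.card V - 1) + (Nat.card V - 1) := by ring
    omega
  refine ⟨fun i => cl G φ i, ⟨hφ, ?_, ?_⟩, i, ?_⟩
  · intro i j hij
    rw [Set.disjoint_left]
    intro e
    induction e using Sym2.ind with
    | _ a b =>
      intro h1 h2
      exact hij (h1.2.symm.trans h2.2)
  · ext e
    induction e using Sym2.ind with
    | _ a b =>
      rw [Set.mem_iUnion]
      constructor
      · rintro ⟨i, h1⟩
        exact h1.1
      · intro h1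
        exact ⟨φ s(a, b), h1, rfl⟩
  · exact fun c => comp_edges (hφ _) (fun v => by have := rc_le_edges (cl G φ i) v; omega) c

theorem exists_sub (F0 : SimpleGraph V) (m : ℕ) (h : m ≤ F0.edgeSet.ncard) :
    ∃ F : SimpleGraph V, F ≤ F0 ∧ F.edgeSet.ncard = m := by
  classical
  obtain ⟨S, hS, hc⟩ := Set.exists_subset_card_eq h
  refine ⟨fromEdgeSet S, ?_, ?_⟩
  · intro a b hab
    rw [fromEdgeSet_adj] at hab
    exact hS hab.1
  · rw [edgeSet_fromEdgeSet]
    rw [← hc]
    congr 1
    ext x
    constructor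
    · exact fun hx => hx.1
    · exact fun hx => ⟨hx, fun hd => F0.not_isDiag_of_mem_edgeSet (hS hx) hd⟩

set_option maxHeartbeats 1000000 in
theorem det (G : SimpleGraph V) (hG : Good G) (hn : 1000 ≤ Nat.card V) (k d : ℕ) (hk : 1 ≤ k)
    (hd : 1 ≤ d)
    (hden : ∀ S : Set V, 2 ≤ S.ncard →
      (k + d + 1) * eIn G S ≤ (k * (k + d + 1) + d) * (S.ncard - 1))
    (hlt : ∀ S : Set V, 2 ≤ S.ncard → eIn G S < (k + 1) * (S.ncard - 1))
    (hone : ∀ S : Set V, S.ncard ≤ 1 → eIn G S = 0) : Dec G k d := by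
  classical
  by_cases hdn : Nat.card V ≤ d + 2
  · exact dec_large G k d hdn hlt hone (by omega)
  push Not at hdn
  obtain ⟨k', rfl⟩ : ∃ k', k = k' + 1 := ⟨k - 1, by omega⟩
  by_cases hall : ∀ A : Set V, A.Nonempty → eIn G A ≤ (k' + 1) * (A.ncard - 1)
  · refine dec_of_sparse G ⊥ k' d bot_le isAcyclic_bot ?_ ?_
    · intro v
      have := rc_le_edges (⊥ : SimpleGraph V) v
      rw [edgeSet_bot, Set.ncard_empty] at this
      omega
    · rw [sdiff_bot]
      exact hall
  push Not at hall
  obtain ⟨A0, hA0, hA0e⟩ := hall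
  set n := Nat.card V with hndef
  set k := k' + 1 with hkdef
  obtain ⟨hdeg, hset⟩ := hG
  -- the whole graph
  have hu1 : (Set.univ : Set V).ncard = n := Set.ncard_univ V
  obtain ⟨hE1, hE2⟩ := hset Set.univ (by rw [hu1]; omega)
  have hEden := hden Set.univ (by rw [hu1]; omega)
  have hElt := hlt Set.univ (by rw [hu1]; omega)
  rw [hu1] at hE1 hE2 hEden hElt
  set E := eIn G Set.univ with hEdef
  obtain ⟨N, hN⟩ : ∃ N, n = N + 1 := ⟨n - 1, by omega⟩
  have hN1 : n - 1 = N := by omega
  rw [hN1] at hEden hElt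
  -- bounds for `k`
  have hklo : 49 * n ≤ 200 * (k + 1) := ar1 n N E k hN hE1 hElt
  have hkhi : 200 * k ≤ 51 * (n + 2) := by
    obtain ⟨a, ha⟩ : ∃ a, A0.ncard = a + 1 := by
      have h1 : 1 ≤ A0.ncard := (Set.ncard_pos (Set.toFinite _)).2 hA0
      exact ⟨A0.ncard - 1, by omega⟩
    have h2 : A0.ncard - 1 = a := by omega
    have ha1 : 1 ≤ a := by
      by_contra hcon
      have h3 := hone A0 (by omega)
      omega
    have han : a + 1 ≤ n := by
      rw [← ha, ← hu1]
      exact Set.ncard_le_ncard (Set.subset_univ _) (Set.toFinite _)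
    rw [h2] at hA0e
    by_cases hbig : n ≤ 50 * A0.ncard
    · have h3 := (hset A0 hbig).2
      rw [ha] at h3
      exact ar2 a n k _ ha1 han hA0e h3
    · exfalso
      push Not at hbig
      have h3 := eIn_choose G (a + 1) A0 ha
      have h4 : 2 * k < a + 1 := ar3 a k _ ha1 hA0e h3
      omega
  -- the number of edges of the small forest
  set m := E - k * N with hm
  have hmd : (k + d + 1) * m ≤ d * N := by
    by_cases h1 : k * N ≤ E
    · have h2 : E = k * N + m := by omega
      exact ar4 k d m E N h2 hEden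
    · have h2 : m = 0 := by omega
      rw [h2]
      omega
  obtain ⟨t, s, ht9, htd, ht1, hst, hs⟩ : ∃ t s : ℕ, t ≤ 9 ∧ t ≤ d ∧ 1 ≤ t ∧ m ≤ s * t ∧
      1000 * s ≤ 97 * n := by
    by_cases hd9 : 9 ≤ d
    · refine ⟨9, (m + 8) / 9, le_refl _, hd9, by norm_num, by omega, ?_⟩
      have h1 : 100 * m ≤ 81 * n := ar5 k d m N n hN hmd hklo (by omega) hd
      omega
    · refine ⟨d, (m + d - 1) / d, by omega, le_refl _, hd, ?_, ?_⟩
      · have h1 := Nat.div_add_mod (m + d - 1) d
        have h2 := Nat.mod_lt (m + d - 1) (show 0 < d by omega)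
        rw [mul_comm]
        omega
      · have h1 : (m + d - 1) / d ≤ 6 := by
          by_contra hcon
          push Not at hcon
          have h2 : 7 * d ≤ m + d - 1 := by
            have := (Nat.le_div_iff_mul_le (show 0 < d by omega)).1 hcon
            exact this
          have h3 : 6 * d ≤ m := by omega
          have h6 := ar6 k d m N hd hmd h3
          omega
        omega
  obtain ⟨F0, g1, g2, g3, g4, g5⟩ := stars G ⟨hdeg, hset⟩ hn t s ht9 hs
  obtain ⟨F, hF1, hF2⟩ := exists_sub F0 m (by rw [g3]; exact hst)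
  refine dec_of_sparse G F k' d (hF1.trans g1) (IsAcyclic.anti hF1 g2) ?_ ?_
  · intro v
    have h1 := g5 v
    have h2 : rc F v ≤ rc F0 v :=
      Set.ncard_le_ncard (fun _ hu => Reachable.mono hF1 hu) (Set.toFinite _)
    omega
  -- the rest is sparse
  set H := G \ F with hH
  have hHe : H.edgeSet = G.edgeSet \ F.edgeSet := edgeSet_sdiff G F
  have hHc : eIn H Set.univ ≤ k * N := by
    rw [eIn_univ, hHe, Set.ncard_sdiff (edgeSet_mono (hF1.trans g1)) (Set.toFinite _), hF2]
    have h1 : E = G.edgeSet.ncard := eIn_univ G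
    omega
  have hHd : ∀ v, 49 * n ≤ 100 * (H.neighborSet v).ncard + 900 := by
    intro v
    have h1 := hdeg v
    have h2 := g4 v
    have h2' : (F.neighborSet v).ncard ≤ (F0.neighborSet v).ncard :=
      Set.ncard_le_ncard (fun _ hu => hF1 hu) (Set.toFinite _)
    have h3 : G.neighborSet v ⊆ H.neighborSet v ∪ F.neighborSet v := by
      intro u hu
      by_cases h4 : F.Adj v u
      · exact Or.inr h4
      · exact Or.inl ⟨hu, h4⟩
    have h4 := Set.ncard_le_ncard h3 (Set.toFinite _)
    have h5 := Set.ncard_union_le (H.neighborSet v) (F.neighborSet v)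
    omega
  intro A hA
  have hpos : 1 ≤ A.ncard := (Set.ncard_pos (Set.toFinite _)).2 hA
  obtain ⟨a, ha⟩ : ∃ a, A.ncard = a + 1 := ⟨A.ncard - 1, by omega⟩
  have h0 : A.ncard - 1 = a := by omega
  have han : a + 1 ≤ n := by
    rw [← ha, ← hu1]
    exact Set.ncard_le_ncard (Set.subset_univ _) (Set.toFinite _)
  rw [h0]
  by_cases h1 : a + 1 ≤ 2 * k
  · exact ar7 a k _ h1 (eIn_choose H (a + 1) A ha)
  push Not at h1
  by_cases h2 : 53 * n + 2000 ≤ 100 * (a + 1)
  · -- large sets
    obtain ⟨j, hj⟩ : ∃ j, n = a + 1 + j := ⟨n - (a + 1), by omega⟩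
    have h3 := eIn_up H ((98 * n - 1800) / 100) (by
      intro v
      have := hHd v
      omega) j A (by omega)
    have h4 : j + 2 * k ≤ (98 * n - 1800) / 100 + 1 := by omega
    have h5 : N = a + j := by omega
    rw [h5] at hHc
    exact ar8 a j k _ _ _ h3 hHc h4
  · -- middle sets
    push Not at h2
    have h3 := (hset A (by omega)).2
    have h4 : eIn H A ≤ eIn G A := eIn_le_of_le sdiff_le A
    rw [ha] at h3
    exact ar9 a k _ _ h3 h4 (by omega) (by omega)

end Pool.Agent.H94.AG
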