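import Pool.Agent.H94.DI.Deg
import Pool.Agent.H94.ND.Base
import Pool.Agent.H94.ND.Comp

/-!
# Typical graphs

All degrees are at least `0.49 n` and every vertex set `A` with at least `n / 50` elements spans
between `0.245 |A|^2` and `0.255 |A|^2` edges.
-/

namespace Pool.Agent.H94.AG

open SimpleGraph Pool.Agent.H94.ND

variable {V : Type}

/-- typical graphs. -/
def Good (G : SimpleGraph V) : Prop :=
  (∀ v, 49 * Nat.card V ≤ 100 * (G.neighborSet v).ncard) ∧
  ∀ A : Set V, Nat.card V ≤ 50 * A.ncard →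
    49 * A.ncard ^ 2 ≤ 200 * eIn G A ∧ 200 * eIn G A ≤ 51 * A.ncard ^ 2

end Pool.Agent.H94.AG
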