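import Mathlib

/-!
# Tail bounds for fair coins (counting form)

`omega : iota -> Bool` uniform, `P` a finset of indices, `X = number of e in P with omega e`.
Exponential moment: `sum over omega of exp (lam (2 X - |P|)) =
(exp lam + exp (-lam))^|P| 2^(card iota - |P|) <= 2^(card iota) exp (lam^2 |P| / 2)`
(write the exponential as a product over all indices, `Finset.prod_univ_sum`,
`Real.cosh_le_exp_half_sq`). Markov with `lam = s`: the number of `omega` with
`2 X >= (1 + s) |P|` is at most `2^(card iota) exp (- s^2 |P| / 2)`; the same for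
`2 X <= (1 - s) |P|` (replace `omega` by its negation, or use `-lam`).
-/

namespace Pool.Agent.H94.AG

/-- the exponential moment -/
private theorem mgf_le {ι : Type} [Fintype ι] [DecidableEq ι] (P : Finset ι) (t : ℝ) :
    ∑ ω : ι → Bool, Real.exp (t * (2 * ((P.filter (fun e => ω e = true)).card : ℝ) - P.card)) ≤
      2 ^ Fintype.card ι * Real.exp (t ^ 2 * P.card / 2) := by
  have h1 : ∀ ω : ι → Bool,
      Real.exp (t * (2 * ((P.filter (fun e => ω e = true)).card : ℝ) - P.card)) =
        ∏ e, (if e ∈ P then Real.exp (if ω e = true then t else -t) else 1) := by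
    intro ω
    have hX : ((P.filter (fun e => ω e = true)).card : ℝ) =
        ∑ e ∈ P, (if ω e = true then (1 : ℝ) else 0) := by
      rw [Finset.sum_boole]
    have hP : (P.card : ℝ) = ∑ e ∈ P, (1 : ℝ) := by simp
    have hs : t * (2 * ((P.filter (fun e => ω e = true)).card : ℝ) - P.card) =
        ∑ e ∈ P, (if ω e = true then t else -t) := by
      rw [hX, hP, Finset.mul_sum, ← Finset.sum_sub_distrib, Finset.mul_sum]
      refine Finset.sum_congr rfl fun e _ => ?_
      by_cases he : ω e = true
      · rw [if_pos he, if_pos he]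
        ring
      · rw [if_neg he, if_neg he]
        ring
    rw [hs, Real.exp_sum, Finset.prod_ite_mem, Finset.univ_inter]
  have h2 : ∑ ω : ι → Bool, ∏ e, (if e ∈ P then Real.exp (if ω e = true then t else -t) else 1) =
      ∏ e, ∑ b : Bool, (if e ∈ P then Real.exp (if b = true then t else -t) else 1) := by
    rw [Finset.prod_univ_sum, Fintype.piFinset_univ]
  rw [Finset.sum_congr rfl fun ω _ => h1 ω, h2]
  have h3 : ∏ e, ∑ b : Bool, (if e ∈ P then Real.exp (if b = true then t else -t) else 1) ≤
      ∏ e, (2 * (if e ∈ P then Real.exp (t ^ 2 / 2) else 1)) := by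
    refine Finset.prod_le_prod (fun e _ => ?_) fun e _ => ?_
    · refine Finset.sum_nonneg fun b _ => ?_
      by_cases he : e ∈ P
      · rw [if_pos he]
        exact (Real.exp_pos _).le
      · rw [if_neg he]
        exact zero_le_one
    · rw [Fintype.sum_bool]
      by_cases he : e ∈ P
      · rw [if_pos he, if_pos he, if_pos he, if_pos rfl, if_neg Bool.false_ne_true]
        have hc := Real.cosh_le_exp_half_sq t
        rw [Real.cosh_eq] at hc
        linarith
      · rw [if_neg he, if_neg he, if_neg he]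
        norm_num
  refine h3.trans (le_of_eq ?_)
  rw [Finset.prod_mul_distrib, Finset.prod_const, Finset.card_univ, Finset.prod_ite_mem,
    Finset.univ_inter, Finset.prod_const, ← Real.exp_nat_mul]
  congr 2
  ring

/-- Markov -/
private theorem count_le {ι : Type} [Fintype ι] [DecidableEq ι] (P : Finset ι) (t : ℝ)
    (Q : (ι → Bool) → Prop)
    (hQ : ∀ ω, Q ω → t ^ 2 * P.card ≤
      t * (2 * ((P.filter (fun e => ω e = true)).card : ℝ) - P.card)) :
    (Nat.card {ω : ι → Bool // Q ω} : ℝ) ≤
      2 ^ Fintype.card ι * Real.exp (-(t ^ 2 * P.card / 2)) := by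
  classical
  have hm := mgf_le P t
  rw [Nat.card_eq_fintype_card, Fintype.card_subtype]
  have h1 : ((Finset.univ.filter (fun ω : ι → Bool => Q ω)).card : ℝ) *
      Real.exp (t ^ 2 * P.card) ≤ 2 ^ Fintype.card ι * Real.exp (t ^ 2 * P.card / 2) := by
    refine le_trans ?_ hm
    rw [← nsmul_eq_mul, ← Finset.sum_const]
    refine (Finset.sum_le_sum fun ω hω => Real.exp_le_exp.2 (hQ ω (Finset.mem_filter.1 hω).2)).trans
      ?_
    exact Finset.sum_le_sum_of_subset_of_nonneg (Finset.filter_subset _ _)
      fun ω _ _ => (Real.exp_pos _).le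
  have h2 : Real.exp (t ^ 2 * P.card / 2) =
      Real.exp (-(t ^ 2 * P.card / 2)) * Real.exp (t ^ 2 * P.card) := by
    rw [← Real.exp_add]
    congr 1
    ring
  rw [h2, ← mul_assoc] at h1
  exact le_of_mul_le_mul_right h1 (Real.exp_pos _)

theorem tail_up {ι : Type} [Fintype ι] [DecidableEq ι] (P : Finset ι) (s : ℝ) (hs : 0 ≤ s) :
    (Nat.card {ω : ι → Bool //
      (1 + s) * (P.card : ℝ) ≤ 2 * ((P.filter (fun e => ω e = true)).card : ℝ)} : ℝ) ≤
      2 ^ Fintype.card ι * Real.exp (-(s ^ 2 * P.card / 2)) := by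
  refine count_le P s _ fun ω hω => ?_
  have h : s * (P.card : ℝ) ≤ 2 * ((P.filter (fun e => ω e = true)).card : ℝ) - P.card := by
    linarith
  have := mul_le_mul_of_nonneg_left h hs
  calc s ^ 2 * (P.card : ℝ) = s * (s * P.card) := by ring
    _ ≤ _ := this

theorem tail_down {ι : Type} [Fintype ι] [DecidableEq ι] (P : Finset ι) (s : ℝ) (hs : 0 ≤ s) :
    (Nat.card {ω : ι → Bool //
      2 * ((P.filter (fun e => ω e = true)).card : ℝ) ≤ (1 - s) * (P.card : ℝ)} : ℝ) ≤
      2 ^ Fintype.card ι * Real.exp (-(s ^ 2 * P.card / 2)) := by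
  have h0 := count_le P (-s)
    (fun ω => 2 * ((P.filter (fun e => ω e = true)).card : ℝ) ≤ (1 - s) * (P.card : ℝ))
    fun ω hω => by
      have h : s * (P.card : ℝ) ≤ P.card - 2 * ((P.filter (fun e => ω e = true)).card : ℝ) := by
        have hω' : 2 * ((P.filter (fun e => ω e = true)).card : ℝ) ≤ (1 - s) * (P.card : ℝ) := hω
        linarith
      have := mul_le_mul_of_nonneg_left h hs
      calc (-s) ^ 2 * (P.card : ℝ) = s * (s * P.card) := by ring
        _ ≤ _ := this
        _ = -s * (2 * ((P.filter (fun e => ω e = true)).card : ℝ) - P.card) := by ring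
  rwa [neg_sq] at h0

end Pool.Agent.H94.AG
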