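import Pool.Agent.H94.AG.Defs
import Pool.Agent.H94.AG.Tail

/-!
# Almost all graphs are typical

`Ed = {e : Sym2 (Fin n) // not e.IsDiag}`; `SimpleGraph (Fin n)` is in bijection with
`Ed -> Bool` (decide, classical). For a set `A` with `a = |A| >= n / 50` let `P` be the pairs
inside `A`, `|P| = a (a - 1) / 2`; `200 e(A) > 51 a^2` gives `2 e(A) >= (1 + s) |P|` with
`s = 1/50`, and `200 e(A) < 49 a^2` gives `2 e(A) <= (1 - s') |P|` with `s' = 1/100` for large `a`
(`49/100 a^2 <= (99/100) a (a-1)/2` for `a >= 99`). For a vertex `v`: `P` = the `n - 1` pairs at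
`v`, `100 deg v < 49 n` gives `2 deg v <= (99/100)(n - 1)` for `n >= 99`. Union over at most `2^n`
sets and `n` vertices: the fraction of bad graphs is at most
`2^(n+1) exp (- n^2 / 10^9) + n exp (- (n-1) / 20000)` (any constants), which tends to 0.
-/

namespace Pool.Agent.H94.AG

open SimpleGraph Pool.Agent.H94.ND Filter

private abbrev Ed (n : ℕ) : Type := {e : Sym2 (Fin n) // ¬ e.IsDiag}

/-- the graph of a colouring of the pairs -/
private noncomputable def gr {n : ℕ} (ω : Ed n → Bool) : SimpleGraph (Fin n) :=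
  SimpleGraph.fromEdgeSet (Subtype.val '' {e : Ed n | ω e = true})

private theorem mem_gr {n : ℕ} (ω : Ed n → Bool) (e : Sym2 (Fin n)) :
    e ∈ (gr ω).edgeSet ↔ ∃ h : ¬ e.IsDiag, ω ⟨e, h⟩ = true := by
  unfold gr
  rw [SimpleGraph.edgeSet_fromEdgeSet]
  constructor
  · rintro ⟨⟨x, hx, rfl⟩, h2⟩
    exact ⟨x.2, hx⟩
  · rintro ⟨h, h2⟩
    exact ⟨⟨⟨e, h⟩, h2, rfl⟩, h⟩

private theorem gr_bij (n : ℕ) : Function.Bijective (gr (n := n)) := by
  classical
  constructor
  · intro a b h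
    funext e
    have h1 : e.1 ∈ (gr a).edgeSet ↔ e.1 ∈ (gr b).edgeSet := by rw [h]
    rw [mem_gr, mem_gr] at h1
    have h2 : a e = true ↔ b e = true :=
      ⟨fun h3 => (h1.1 ⟨e.2, h3⟩).2, fun h3 => (h1.2 ⟨e.2, h3⟩).2⟩
    exact Bool.eq_iff_iff.2 h2
  · intro G
    refine ⟨fun e => decide (e.1 ∈ G.edgeSet), ?_⟩
    apply SimpleGraph.edgeSet_injective
    ext e
    rw [mem_gr]
    constructor
    · rintro ⟨h, h2⟩
      exact of_decide_eq_true h2
    · intro h
      exact ⟨G.not_isDiag_of_mem_edgeSet h, decide_eq_true h⟩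

open Classical in
/-- the pairs inside `A` -/
private noncomputable def Pin {n : ℕ} (A : Finset (Fin n)) : Finset (Ed n) :=
  Finset.univ.filter (fun e => ∀ v ∈ e.1, v ∈ A)

private theorem card_Pin {n : ℕ} (A : Finset (Fin n)) : (Pin A).card = A.card.choose 2 := by
  classical
  rw [← Sym2.card_image_offDiag A,
    ← Finset.card_map (⟨Subtype.val, Subtype.val_injective⟩ : Ed n ↪ Sym2 (Fin n))]
  refine congrArg Finset.card ?_
  ext e
  rw [Finset.mem_map, Finset.mem_image]
  constructor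
  · rintro ⟨x, hx, rfl⟩
    obtain ⟨x, hd⟩ := x
    induction x using Sym2.ind with
    | _ a b =>
      have h1 := (Finset.mem_filter.1 hx).2
      refine ⟨(a, b), ?_, rfl⟩
      rw [Finset.mem_offDiag]
      exact ⟨h1 a (Sym2.mem_mk_left a b), h1 b (Sym2.mem_mk_right a b), fun h => hd h⟩
  · rintro ⟨⟨a, b⟩, hp, rfl⟩
    rw [Finset.mem_offDiag] at hp
    refine ⟨⟨s(a, b), fun h => hp.2.2 h⟩, ?_, rfl⟩
    refine Finset.mem_filter.2 ⟨Finset.mem_univ _, ?_⟩
    intro v hv
    rcases Sym2.mem_iff.1 hv with h | h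
    · rw [h]; exact hp.1
    · rw [h]; exact hp.2.1

private theorem eIn_gr {n : ℕ} (ω : Ed n → Bool) (A : Finset (Fin n)) :
    eIn (gr ω) (A : Set (Fin n)) = ((Pin A).filter (fun e => ω e = true)).card := by
  classical
  rw [← Finset.card_map (⟨Subtype.val, Subtype.val_injective⟩ : Ed n ↪ Sym2 (Fin n)),
    ← Set.ncard_coe_finset]
  unfold eIn
  refine congrArg Set.ncard ?_
  ext e
  rw [Set.mem_ofPred_eq, mem_gr, Finset.mem_coe, Finset.mem_map]
  constructor
  · rintro ⟨⟨h, h2⟩, h3⟩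
    exact ⟨⟨e, h⟩, Finset.mem_filter.2 ⟨Finset.mem_filter.2 ⟨Finset.mem_univ _, h3⟩, h2⟩, rfl⟩
  · rintro ⟨x, hx, rfl⟩
    have h1 := Finset.mem_filter.1 hx
    exact ⟨⟨x.2, h1.2⟩, (Finset.mem_filter.1 h1.1).2⟩

/-- the pairs at `v` -/
private def emb {n : ℕ} (v : Fin n) : {u : Fin n // u ≠ v} ↪ Ed n where
  toFun u := ⟨s(v, u.1), fun h => u.2 (Eq.symm h)⟩
  inj' := by
    intro a b h
    have h1 : (s(v, a.1) : Sym2 (Fin n)) = s(v, b.1) := congrArg Subtype.val h
    exact Subtype.ext (Sym2.congr_right.1 h1)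

private noncomputable def Pat {n : ℕ} (v : Fin n) : Finset (Ed n) := Finset.univ.map (emb v)

private theorem card_Pat {n : ℕ} (v : Fin n) : (Pat v).card = n - 1 := by
  unfold Pat
  rw [Finset.card_map, Finset.card_univ, Fintype.card_subtype_compl, Fintype.card_fin,
    Fintype.card_unique]

private theorem deg_gr {n : ℕ} (ω : Ed n → Bool) (v : Fin n) :
    ((gr ω).neighborSet v).ncard = ((Pat v).filter (fun e => ω e = true)).card := by
  classical
  unfold Pat
  rw [Finset.filter_map, Finset.card_map,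
    ← Finset.card_map (⟨Subtype.val, Subtype.val_injective⟩ : {u : Fin n // u ≠ v} ↪ Fin n),
    ← Set.ncard_coe_finset]
  refine congrArg Set.ncard ?_
  ext u
  rw [SimpleGraph.mem_neighborSet, ← SimpleGraph.mem_edgeSet, mem_gr, Finset.mem_coe,
    Finset.mem_map]
  constructor
  · rintro ⟨h, h2⟩
    exact ⟨⟨u, fun h3 => h (by rw [h3]; rfl)⟩, Finset.mem_filter.2 ⟨Finset.mem_univ _, h2⟩, rfl⟩
  · rintro ⟨x, hx, rfl⟩
    exact ⟨_, (Finset.mem_filter.1 hx).2⟩

private theorem good_of {n : ℕ} (hn : 5000 ≤ n) (ω : Ed n → Bool)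
    (h1 : ∀ v : Fin n, ¬ 2 * (((Pat v).filter (fun e => ω e = true)).card : ℝ) ≤
      (1 - 1 / 100) * ((Pat v).card : ℝ))
    (h2 : ∀ A : Finset (Fin n), n ≤ 50 * A.card → ¬ (1 + 1 / 50) * ((Pin A).card : ℝ) ≤
      2 * (((Pin A).filter (fun e => ω e = true)).card : ℝ))
    (h3 : ∀ A : Finset (Fin n), n ≤ 50 * A.card →
      ¬ 2 * (((Pin A).filter (fun e => ω e = true)).card : ℝ) ≤
        (1 - 1 / 100) * ((Pin A).card : ℝ)) :
    Good (gr ω) := by
  classical
  have hn' : (5000 : ℝ) ≤ n := by exact_mod_cast hn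
  constructor
  · intro v
    rw [Nat.card_eq_fintype_card, Fintype.card_fin, deg_gr]
    have h := h1 v
    rw [card_Pat, not_le, Nat.cast_sub (by omega : 1 ≤ n), Nat.cast_one] at h
    have h4 : 49 * (n : ℝ) ≤ 100 * (((Pat v).filter (fun e => ω e = true)).card : ℝ) := by
      linarith
    exact_mod_cast h4
  · intro A hA
    obtain ⟨B, rfl⟩ : ∃ B : Finset (Fin n), (B : Set (Fin n)) = A := ⟨A.toFinset, by simp⟩
    rw [Set.ncard_coe_finset] at hA ⊢
    rw [Nat.card_eq_fintype_card, Fintype.card_fin] at hA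
    rw [eIn_gr]
    have h := h2 B hA
    have h' := h3 B hA
    rw [card_Pin, not_le, Nat.cast_choose_two] at h h'
    have hb : (100 : ℝ) ≤ B.card := by
      have h5 : 100 ≤ B.card := by omega
      exact_mod_cast h5
    constructor
    · have h4 : 49 * (B.card : ℝ) ^ 2 ≤
          200 * (((Pin B).filter (fun e => ω e = true)).card : ℝ) := by nlinarith
      exact_mod_cast h4
    · have h4 : 200 * (((Pin B).filter (fun e => ω e = true)).card : ℝ) ≤
          51 * (B.card : ℝ) ^ 2 := by nlinarith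
      exact_mod_cast h4

private theorem ncf {Ω : Type} [Fintype Ω] (p : Ω → Prop) [DecidablePred p] :
    Nat.card {ω // p ω} = (Finset.univ.filter p).card := by
  rw [Nat.card_eq_fintype_card, Fintype.card_subtype]

private theorem exp_P {n a : ℕ} (hn : 5000 ≤ n) (ha : n ≤ 50 * a) {s : ℝ}
    (hs : (1 / 100) ^ 2 ≤ s) :
    Real.exp (-(s * ((a.choose 2 : ℕ) : ℝ) / 2)) ≤ Real.exp (-((n : ℝ) ^ 2 / 200000000)) := by
  rw [Nat.cast_choose_two]
  have hn' : (5000 : ℝ) ≤ n := by exact_mod_cast hn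
  have ha' : (n : ℝ) ≤ 50 * a := by exact_mod_cast ha
  have ha1 : (100 : ℝ) ≤ a := by linarith
  have h1 : (n : ℝ) ^ 2 / 10000 ≤ (a : ℝ) * (a - 1) / 2 := by nlinarith
  have h2 : (1 / 100) ^ 2 * ((n : ℝ) ^ 2 / 10000) ≤ s * ((a : ℝ) * (a - 1) / 2) :=
    mul_le_mul hs h1 (by positivity) (by linarith [sq_nonneg (1 / 100 : ℝ)])
  apply Real.exp_le_exp.2
  have h3 : (n : ℝ) ^ 2 / 200000000 = (1 / 100) ^ 2 * ((n : ℝ) ^ 2 / 10000) / 2 := by ring
  linarith

open Classical in
private theorem card_bad {n : ℕ} (hn : 5000 ≤ n) :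
    (Nat.card {ω : Ed n → Bool // ¬ Good (gr ω)} : ℝ) ≤
      2 ^ Fintype.card (Ed n) * (n * Real.exp (-(((n : ℝ) - 1) / 20000)) +
        2 ^ (n + 1) * Real.exp (-((n : ℝ) ^ 2 / 200000000))) := by
  set N := Fintype.card (Ed n) with hN
  let F1 : Fin n → Finset (Ed n → Bool) := fun v => Finset.univ.filter (fun ω =>
    2 * (((Pat v).filter (fun e => ω e = true)).card : ℝ) ≤ (1 - 1 / 100) * ((Pat v).card : ℝ))
  let F2 : Finset (Fin n) → Finset (Ed n → Bool) := fun A => Finset.univ.filter (fun ω =>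
    (1 + 1 / 50) * ((Pin A).card : ℝ) ≤ 2 * (((Pin A).filter (fun e => ω e = true)).card : ℝ))
  let F3 : Finset (Fin n) → Finset (Ed n → Bool) := fun A => Finset.univ.filter (fun ω =>
    2 * (((Pin A).filter (fun e => ω e = true)).card : ℝ) ≤ (1 - 1 / 100) * ((Pin A).card : ℝ))
  let T : Finset (Finset (Fin n)) := Finset.univ.filter (fun A => n ≤ 50 * A.card)
  have hsub : (Finset.univ.filter (fun ω : Ed n → Bool => ¬ Good (gr ω))) ⊆
      (Finset.univ.biUnion F1) ∪ (T.biUnion fun A => F2 A ∪ F3 A) := by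
    intro ω hω
    by_contra hc
    refine (Finset.mem_filter.1 hω).2 (good_of hn ω ?_ ?_ ?_)
    · intro v h
      exact hc (Finset.mem_union_left _ (Finset.mem_biUnion.2 ⟨v, Finset.mem_univ _,
        Finset.mem_filter.2 ⟨Finset.mem_univ _, h⟩⟩))
    · intro A hA h
      exact hc (Finset.mem_union_right _ (Finset.mem_biUnion.2 ⟨A,
        Finset.mem_filter.2 ⟨Finset.mem_univ _, hA⟩,
        Finset.mem_union_left _ (Finset.mem_filter.2 ⟨Finset.mem_univ _, h⟩)⟩))
    · intro A hA h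
      exact hc (Finset.mem_union_right _ (Finset.mem_biUnion.2 ⟨A,
        Finset.mem_filter.2 ⟨Finset.mem_univ _, hA⟩,
        Finset.mem_union_right _ (Finset.mem_filter.2 ⟨Finset.mem_univ _, h⟩)⟩))
  have h1 : ∀ v : Fin n, ((F1 v).card : ℝ) ≤ 2 ^ N * Real.exp (-(((n : ℝ) - 1) / 20000)) := by
    intro v
    have h := tail_down (Pat v) (1 / 100) (by norm_num)
    rw [ncf, card_Pat, Nat.cast_sub (by omega : 1 ≤ n), Nat.cast_one] at h
    have h4 : -((1 / 100 : ℝ) ^ 2 * ((n : ℝ) - 1) / 2) = -(((n : ℝ) - 1) / 20000) := by ring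
    rw [h4] at h
    have h5 : F1 v = Finset.univ.filter (fun ω : Ed n → Bool =>
      2 * (((Pat v).filter (fun e => ω e = true)).card : ℝ) ≤
        (1 - 1 / 100) * ((n : ℝ) - 1)) := by
      refine Finset.filter_congr ?_
      intro ω _
      rw [card_Pat, Nat.cast_sub (by omega : 1 ≤ n), Nat.cast_one]
    rw [h5]
    exact h
  have h2 : ∀ A ∈ T, ((F2 A).card : ℝ) ≤ 2 ^ N * Real.exp (-((n : ℝ) ^ 2 / 200000000)) := by
    intro A hA
    have h := tail_up (Pin A) (1 / 50) (by norm_num)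
    rw [ncf] at h
    refine h.trans (mul_le_mul_of_nonneg_left ?_ (by positivity))
    rw [card_Pin]
    exact exp_P hn (Finset.mem_filter.1 hA).2 (by norm_num)
  have h3 : ∀ A ∈ T, ((F3 A).card : ℝ) ≤ 2 ^ N * Real.exp (-((n : ℝ) ^ 2 / 200000000)) := by
    intro A hA
    have h := tail_down (Pin A) (1 / 100) (by norm_num)
    rw [ncf] at h
    refine h.trans (mul_le_mul_of_nonneg_left ?_ (by positivity))
    rw [card_Pin]
    exact exp_P hn (Finset.mem_filter.1 hA).2 (by norm_num)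
  have h4 : (Finset.univ.filter (fun ω : Ed n → Bool => ¬ Good (gr ω))).card ≤
      (∑ v : Fin n, (F1 v).card) + ∑ A ∈ T, ((F2 A).card + (F3 A).card) := by
    refine (Finset.card_le_card hsub).trans ((Finset.card_union_le _ _).trans ?_)
    refine Nat.add_le_add Finset.card_biUnion_le (Finset.card_biUnion_le.trans ?_)
    exact Finset.sum_le_sum fun A _ => Finset.card_union_le _ _
  rw [ncf]
  have h5 : ((Finset.univ.filter (fun ω : Ed n → Bool => ¬ Good (gr ω))).card : ℝ) ≤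
      (∑ v : Fin n, ((F1 v).card : ℝ)) + ∑ A ∈ T, (((F2 A).card : ℝ) + ((F3 A).card : ℝ)) := by
    exact_mod_cast h4
  have h6 : ∑ v : Fin n, ((F1 v).card : ℝ) ≤
      n * (2 ^ N * Real.exp (-(((n : ℝ) - 1) / 20000))) := by
    refine (Finset.sum_le_card_nsmul _ _ _ fun v _ => h1 v).trans ?_
    rw [Finset.card_univ, Fintype.card_fin, nsmul_eq_mul]
  have h7 : ∑ A ∈ T, (((F2 A).card : ℝ) + ((F3 A).card : ℝ)) ≤
      2 ^ n * (2 * (2 ^ N * Real.exp (-((n : ℝ) ^ 2 / 200000000)))) := by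
    refine (Finset.sum_le_card_nsmul T _ (2 * (2 ^ N * Real.exp (-((n : ℝ) ^ 2 / 200000000))))
      fun A hA => ?_).trans ?_
    · have a1 := h2 A hA
      have a2 := h3 A hA
      linarith
    · rw [nsmul_eq_mul]
      refine mul_le_mul_of_nonneg_right ?_ (by positivity)
      have h8 : T.card ≤ 2 ^ n := by
        refine (Finset.card_le_univ T).trans ?_
        rw [Fintype.card_finset, Fintype.card_fin]
      exact_mod_cast h8
  refine h5.trans ((add_le_add h6 h7).trans (le_of_eq ?_))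
  ring

private theorem card_graphs (n : ℕ) :
    (Nat.card (SimpleGraph (Fin n)) : ℝ) = 2 ^ Fintype.card (Ed n) := by
  classical
  rw [← Nat.card_congr (Equiv.ofBijective _ (gr_bij n)), Nat.card_eq_fintype_card,
    Fintype.card_fun, Fintype.card_bool]
  push_cast
  rfl

private theorem card_good (n : ℕ) :
    Nat.card {G : SimpleGraph (Fin n) // ¬ Good G} =
      Nat.card {ω : Ed n → Bool // ¬ Good (gr ω)} :=
  (Nat.card_congr ((Equiv.ofBijective _ (gr_bij n)).subtypeEquiv fun _ => Iff.rfl)).symm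

private theorem lim1 : Tendsto (fun n : ℕ => (n : ℝ) * Real.exp (-(((n : ℝ) - 1) / 20000)))
    atTop (nhds 0) := by
  have h1 := (Real.tendsto_pow_mul_exp_neg_atTop_nhds_zero 1)
  have h2 : Tendsto (fun n : ℕ => (n : ℝ) / 20000) atTop atTop :=
    tendsto_natCast_atTop_atTop.atTop_div_const (by norm_num)
  have h3 := (h1.comp h2).const_mul (20000 * Real.exp (1 / 20000))
  rw [mul_zero] at h3
  refine h3.congr fun n => ?_
  have h4 : Real.exp (-(((n : ℝ) - 1) / 20000)) =
      Real.exp (1 / 20000) * Real.exp (-((n : ℝ) / 20000)) := by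
    rw [← Real.exp_add]
    ring_nf
  rw [h4]
  simp only [Function.comp]
  ring

private theorem lim2 : Tendsto (fun n : ℕ => (2 : ℝ) ^ (n + 1) *
    Real.exp (-((n : ℝ) ^ 2 / 200000000))) atTop (nhds 0) := by
  have h1 : Tendsto (fun n : ℕ => Real.exp 1 * Real.exp (-(n : ℝ))) atTop (nhds 0) := by
    have h2 := (Real.tendsto_exp_neg_atTop_nhds_zero.comp
      (tendsto_natCast_atTop_atTop (R := ℝ))).const_mul (Real.exp 1)
    rw [mul_zero] at h2
    exact h2
  refine squeeze_zero' (Eventually.of_forall fun n => by positivity) ?_ h1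
  filter_upwards [eventually_ge_atTop 400000000] with n hn
  have hn' : (400000000 : ℝ) ≤ n := by exact_mod_cast hn
  have h3 : (2 : ℝ) ≤ Real.exp 1 := by
    have := Real.add_one_le_exp (1 : ℝ)
    linarith
  have h4 : (2 : ℝ) ^ (n + 1) ≤ Real.exp ((n : ℝ) + 1) := by
    have h5 : Real.exp ((n : ℝ) + 1) = Real.exp 1 ^ (n + 1) := by
      rw [← Real.exp_nat_mul]
      push_cast
      ring_nf
    rw [h5]
    exact pow_le_pow_left₀ (by norm_num) h3 _
  refine (mul_le_mul_of_nonneg_right h4 (Real.exp_pos _).le).trans ?_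
  rw [← Real.exp_add, ← Real.exp_add]
  apply Real.exp_le_exp.2
  nlinarith

theorem prob : Tendsto (fun n : ℕ =>
    (Nat.card {G : SimpleGraph (Fin n) // ¬ Good G} : ℝ) / Nat.card (SimpleGraph (Fin n)))
    atTop (nhds 0) := by
  have h := lim1.add lim2
  rw [add_zero] at h
  refine squeeze_zero' (Eventually.of_forall fun n => by positivity) ?_ h
  filter_upwards [eventually_ge_atTop 5000] with n hn
  rw [card_graphs, card_good, div_le_iff₀ (by positivity)]
  refine (card_bad hn).trans (le_of_eq ?_)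
  ring

end Pool.Agent.H94.AG
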