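import Pool.Agent.H94.AG.Defs

/-!
# Disjoint stars in a typical graph

Greedy: `s` disjoint stars with `t` edges each. Induction on `s`: the forest `F` has at most
`10 s` non-isolated vertices; the set `R` of its isolated vertices has at least
`n - 10 s >= 3 n / 100` elements, hence `e(R) >= 49 |R|^2 / 200`, some `v` in `R` has at least
`0.49 |R| >= 9 >= t` neighbours in `R`: add the star at `v` with `t` leaves in `R`.
All degrees are at most `9`, all components have at most `t + 1` vertices, and the forest is
acyclic (every edge has an end of degree one in it; or: add a star to a forest).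
It is enough to keep: `F <= G`, acyclic, `s t` edges, degrees at most `9`, `rc F v <= t + 1`,
number of non-isolated vertices at most `10 s`.
-/

namespace Pool.Agent.H94.AG

open SimpleGraph Pool.Agent.H94.ND

variable {V : Type} [Fintype V]

/-- few edges if all degrees inside `R` are small -/
private theorem eIn_le_mul (H : SimpleGraph V) (R : Set V) (D : ℕ)
    (h : ∀ v ∈ R, {u | u ∈ R ∧ H.Adj v u}.ncard ≤ D) (A : Finset V) :
    (A : Set V) ⊆ R → eIn H A ≤ D * A.card := by
  classical
  induction A using Finset.induction_on with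
  | empty =>
    intro _
    rw [Finset.coe_empty, Pool.Agent.H94.DI.eIn_empty]
    exact Nat.zero_le _
  | @insert v A hv ih =>
    intro hA
    rw [Finset.coe_insert] at hA
    have hA' : (A : Set V) ⊆ R := (Set.subset_insert _ _).trans hA
    rw [Finset.coe_insert, Pool.Agent.H94.DI.eIn_insert H (by simpa using hv), Finset.card_insert_of_notMem hv,
      Nat.mul_add, Nat.mul_one]
    refine Nat.add_le_add (ih hA') ?_
    refine le_trans (Set.ncard_le_ncard ?_ (Set.toFinite _)) (h v (hA (Set.mem_insert _ _)))
    rintro u ⟨h1, h2⟩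
    exact ⟨hA' h1, h2⟩

/-- the star with centre `c` and leaves `L` -/
private def star (c : V) (L : Finset V) : SimpleGraph V where
  Adj u v := (u = c ∧ v ∈ L ∧ v ≠ c) ∨ (v = c ∧ u ∈ L ∧ u ≠ c)
  symm := ⟨fun _ _ h => h.symm⟩
  loopless := ⟨fun u h => by
    rcases h with ⟨h1, _, h3⟩ | ⟨h1, _, h3⟩
    · exact h3 h1
    · exact h3 h1⟩

private theorem star_spec [DecidableEq V] (F : SimpleGraph V) (hF : F.IsAcyclic) (c : V)
    (L : Finset V) : c ∉ L → (∀ l ∈ L, ∀ u, ¬ F.Adj l u) →
    (F ⊔ star c L).IsAcyclic ∧ (F ⊔ star c L).edgeSet.ncard = F.edgeSet.ncard + L.card := by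
  induction L using Finset.induction_on with
  | empty =>
    intro _ _
    have h1 : F ⊔ star c ∅ = F := by
      ext u v
      rw [sup_adj]
      constructor
      · rintro (h | h | h)
        · exact h
        · exact absurd h.2.1 (Finset.notMem_empty _)
        · exact absurd h.2.1 (Finset.notMem_empty _)
      · exact Or.inl
    rw [h1]
    exact ⟨hF, rfl⟩
  | @insert l L hl ih =>
    intro hcL hL
    have hcl : c ≠ l := fun h => hcL (h ▸ Finset.mem_insert_self _ _)
    have hcL' : c ∉ L := fun h => hcL (Finset.mem_insert_of_mem h)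
    obtain ⟨h1, h2⟩ := ih hcL' (fun x hx => hL x (Finset.mem_insert_of_mem hx))
    have h3 : F ⊔ star c (insert l L) = (F ⊔ star c L) ⊔ edge c l := by
      ext u v
      simp only [sup_adj, edge_adj, star, Finset.mem_insert]
      constructor
      · rintro (h | ⟨h, h', h''⟩ | ⟨h, h', h''⟩)
        · exact Or.inl (Or.inl h)
        · rcases h' with h' | h'
          · exact Or.inr ⟨Or.inl ⟨h, h'⟩, by rw [h]; exact h''.symm⟩
          · exact Or.inl (Or.inr (Or.inl ⟨h, h', h''⟩))
        · rcases h' with h' | h'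
          · exact Or.inr ⟨Or.inr ⟨h', h⟩, by rw [h]; exact h''⟩
          · exact Or.inl (Or.inr (Or.inr ⟨h, h', h''⟩))
      · rintro ((h | ⟨h, h', h''⟩ | ⟨h, h', h''⟩) | ⟨⟨h, h'⟩ | ⟨h, h'⟩, h''⟩)
        · exact Or.inl h
        · exact Or.inr (Or.inl ⟨h, Or.inr h', h''⟩)
        · exact Or.inr (Or.inr ⟨h, Or.inr h', h''⟩)
        · exact Or.inr (Or.inl ⟨h, Or.inl h', by rw [h']; exact hcl.symm⟩)
        · exact Or.inr (Or.inr ⟨h', Or.inl h, by rw [h]; exact hcl.symm⟩)
    have hiso : ∀ a, ¬ (F ⊔ star c L).Adj a l := by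
      rintro a (h | ⟨_, h, _⟩ | ⟨h, _, _⟩)
      · exact hL l (Finset.mem_insert_self _ _) a h.symm
      · exact hl h
      · exact hcl h.symm
    have hnr : ¬ (F ⊔ star c L).Reachable c l := by
      intro h
      have h4 : l ∈ {x | x ≠ l} := closed_reach (S := {x | x ≠ l}) (by
        intro a b hab _
        rintro rfl
        exact hiso a hab) h hcl
      exact h4 rfl
    rw [h3]
    refine ⟨IsAcyclic.sup_edge_of_not_reachable hnr h1, ?_⟩
    rw [edgeSet_sup, edgeSet_edge_of_ne hcl, Set.union_singleton,
      Set.ncard_insert_of_notMem (show s(c, l) ∉ (F ⊔ star c L).edgeSet from fun h => hiso c h)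
        (Set.toFinite _), h2,
      Finset.card_insert_of_notMem hl, Nat.add_assoc]

private theorem stars_aux (G : SimpleGraph V) (hG : Good G) (hn : 1000 ≤ Nat.card V) (t : ℕ)
    (ht : t ≤ 9) (s : ℕ) : 1000 * s ≤ 97 * Nat.card V →
    ∃ F : SimpleGraph V, F ≤ G ∧ F.IsAcyclic ∧ F.edgeSet.ncard = s * t ∧
      (∀ v, (F.neighborSet v).ncard ≤ 9) ∧ (∀ v, rc F v ≤ t + 1) ∧
      {v | ∃ u, F.Adj v u}.ncard ≤ 10 * s := by
  classical
  induction s with
  | zero =>
    intro _
    refine ⟨⊥, bot_le, isAcyclic_bot, ?_, ?_, ?_, ?_⟩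
    · rw [edgeSet_bot, Set.ncard_empty, Nat.zero_mul]
    · intro v
      have h1 : (⊥ : SimpleGraph V).neighborSet v = ∅ := by
        ext u
        simp
      rw [h1, Set.ncard_empty]
      exact Nat.zero_le _
    · intro v
      have h1 : rc (⊥ : SimpleGraph V) v ≤ ({v} : Set V).ncard :=
        rc_le_of_closed (Set.mem_singleton v) (fun a b h _ => absurd h (by simp))
      rw [Set.ncard_singleton] at h1
      omega
    · have h1 : {v | ∃ u, (⊥ : SimpleGraph V).Adj v u} = ∅ := by
        ext v
        simp
      rw [h1, Set.ncard_empty]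
  | succ s ih =>
    intro hs
    obtain ⟨F, hFG, hF, hE, hdeg, hrc, hiso⟩ := ih (by omega)
    -- the isolated vertices
    have hR : Nat.card V ≤ {v | ∃ u, F.Adj v u}.ncard + {v | ∀ u, ¬ F.Adj v u}.ncard := by
      have h1 := Set.ncard_add_ncard_compl {v | ∃ u, F.Adj v u}
      have h2 : {v | ∃ u, F.Adj v u}ᶜ = {v | ∀ u, ¬ F.Adj v u} := by
        ext v
        simp
      rw [h2] at h1
      omega
    obtain ⟨R, hRdef⟩ : ∃ R : Set V, R = {v | ∀ u, ¬ F.Adj v u} := ⟨_, rfl⟩
    rw [← hRdef] at hR
    have hR40 : 40 ≤ R.ncard := by omega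
    have hR50 : Nat.card V ≤ 50 * R.ncard := by omega
    obtain ⟨c, hcR, hct⟩ : ∃ c ∈ R, t ≤ {u | u ∈ R ∧ G.Adj c u}.ncard := by
      by_contra hcon
      push Not at hcon
      have h1 := eIn_le_mul G R 8 (fun v hv => by
        have := hcon v hv
        omega) (Set.toFinite R).toFinset (by rw [Set.Finite.coe_toFinset])
      have h2 := (hG.2 R hR50).1
      rw [Set.Finite.coe_toFinset, ← Set.ncard_eq_toFinset_card] at h1
      nlinarith
    obtain ⟨L, hL, hLt⟩ : ∃ L ⊆ (Set.toFinite {u | u ∈ R ∧ G.Adj c u}).toFinset, L.card = t := by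
      refine Finset.exists_subset_card_eq ?_
      rw [← Set.ncard_eq_toFinset_card]
      exact hct
    have hLR : ∀ l ∈ L, l ∈ R ∧ G.Adj c l := fun l hl => by simpa using hL hl
    have hcF : ∀ u, ¬ F.Adj c u := by
      rw [hRdef] at hcR
      exact hcR
    have hLF : ∀ l ∈ L, ∀ u, ¬ F.Adj l u := by
      intro l hl
      have h1 := (hLR l hl).1
      rw [hRdef] at h1
      exact h1
    have hcL : c ∉ L := fun h => (hLR c h).2.ne rfl
    obtain ⟨h1, h2⟩ := star_spec F hF c L hcL hLF
    refine ⟨F ⊔ star c L, sup_le hFG ?_, h1, ?_, ?_, ?_, ?_⟩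
    · rintro u v (⟨h3, h4, _⟩ | ⟨h3, h4, _⟩)
      · rw [h3]
        exact (hLR v h4).2
      · rw [h3]
        exact (hLR u h4).2.symm
    · rw [h2, hE, hLt]
      ring
    · intro v
      by_cases hvc : v = c
      · have h3 : (F ⊔ star c L).neighborSet v ⊆ (L : Set V) := by
          rintro u (h | ⟨_, h, _⟩ | ⟨_, h, _⟩)
          · rw [hvc] at h
            exact absurd h (hcF u)
          · exact h
          · rw [hvc] at h
            exact absurd h hcL
        have h4 := Set.ncard_le_ncard h3 (Set.toFinite _)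
        rw [Set.ncard_coe_finset] at h4
        omega
      · by_cases hvL : v ∈ L
        · have h3 : (F ⊔ star c L).neighborSet v ⊆ {c} := by
            rintro u (h | ⟨h, _, _⟩ | ⟨h, _, _⟩)
            · exact absurd h (hLF v hvL u)
            · exact absurd h hvc
            · exact h
          have h4 := Set.ncard_le_ncard h3 (Set.toFinite _)
          rw [Set.ncard_singleton] at h4
          omega
        · have h3 : (F ⊔ star c L).neighborSet v ⊆ F.neighborSet v := by
            rintro u (h | ⟨h, _, _⟩ | ⟨_, h, _⟩)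
            · exact h
            · exact absurd h hvc
            · exact absurd h hvL
          exact (Set.ncard_le_ncard h3 (Set.toFinite _)).trans (hdeg v)
    · intro v
      by_cases hv : v = c ∨ v ∈ L
      · have h3 : rc (F ⊔ star c L) v ≤ ((insert c L : Finset V) : Set V).ncard := by
          refine rc_le_of_closed ?_ ?_
          · rw [Finset.mem_coe, Finset.mem_insert]
            exact hv
          · intro a b hab ha
            rw [Finset.mem_coe, Finset.mem_insert] at ha ⊢
            rcases hab with h | ⟨_, h, _⟩ | ⟨h, _, _⟩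
            · rcases ha with ha | ha
              · rw [ha] at h
                exact absurd h (hcF b)
              · exact absurd h (hLF a ha b)
            · exact Or.inr h
            · exact Or.inl h
        rw [Set.ncard_coe_finset, Finset.card_insert_of_notMem hcL, hLt] at h3
        exact h3
      · push Not at hv
        have h3 : rc (F ⊔ star c L) v ≤ {u | F.Reachable v u}.ncard := by
          refine rc_le_of_closed (Reachable.refl _) ?_
          intro a b hab ha
          have hkey : (∀ u, ¬ F.Adj a u) → v = a := by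
            intro hai
            by_contra hne
            have h4 : a ∈ {x | x ≠ a} := closed_reach (S := {x | x ≠ a}) (by
              intro p q hpq _
              rintro rfl
              exact hai p hpq.symm) ha hne
            exact h4 rfl
          rcases hab with h | ⟨h, _, _⟩ | ⟨_, h, _⟩
          · exact ha.trans (Adj.reachable h)
          · exact absurd (hkey (by rw [h]; exact hcF)) (by rw [h]; exact hv.1)
          · exact absurd (hkey (hLF a h)) (fun h5 => hv.2 (h5 ▸ h))
        exact h3.trans (hrc v)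
    · have h3 : {v | ∃ u, (F ⊔ star c L).Adj v u} ⊆
          {v | ∃ u, F.Adj v u} ∪ ((insert c L : Finset V) : Set V) := by
        rintro v ⟨u, h | ⟨h, _, _⟩ | ⟨_, h, _⟩⟩
        · exact Or.inl ⟨u, h⟩
        · refine Or.inr ?_
          rw [Finset.mem_coe, Finset.mem_insert]
          exact Or.inl h
        · refine Or.inr ?_
          rw [Finset.mem_coe, Finset.mem_insert]
          exact Or.inr h
      have h4 := Set.ncard_le_ncard h3 (Set.toFinite _)
      have h5 := Set.ncard_union_le {v | ∃ u, F.Adj v u} ((insert c L : Finset V) : Set V)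
      rw [Set.ncard_coe_finset, Finset.card_insert_of_notMem hcL, hLt] at h5
      omega

theorem stars (G : SimpleGraph V) (hG : Good G) (hn : 1000 ≤ Nat.card V) (t s : ℕ) (ht : t ≤ 9)
    (hs : 1000 * s ≤ 97 * Nat.card V) :
    ∃ F : SimpleGraph V, F ≤ G ∧ F.IsAcyclic ∧ F.edgeSet.ncard = s * t ∧
      (∀ v, (F.neighborSet v).ncard ≤ 9) ∧ ∀ v, rc F v ≤ t + 1 := by
  obtain ⟨F, h1, h2, h3, h4, h5, _⟩ := stars_aux G hG hn t ht s hs
  exact ⟨F, h1, h2, h3, h4, h5⟩

end Pool.Agent.H94.AG
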